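import Pool.Agent.Y798.OG.Stm3
import Pool.Agent.Y798.FC.One

/-! Orthogonal groups: the projection of a bounded function to the functions of the angles
(job OG-COMP of helper798). -/

set_option autoImplicit false

namespace Pool.Agent.Y876.OG

open Filter Topology MeasureTheory UnitAddTorus NumberField IsDedekindDomain
  Pool.Agent.W540.BE Pool.Agent.TH553.RS Pool.Agent.TH553.ST
  Pool.Agent.Y798.JL ComplexConjugate Pool.Agent.Y798.FC Pool.Agent.Y798.OG
open Pool.Agent.Y139.ID (Good good_ev trig continuous_trig trig_single integrable_cont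
  integrable_cont_real intL)

section
variable {J : Type} [Fintype J] {W : Subgroup (Auts J)} {Φ : Finset (J → ℤ)}

/-- invariance of the coefficients -/
theorem coef_inv' (h0 : ∀ α ∈ Φ, α ≠ 0) (hinv : ∀ w ∈ W, ∀ x, dens Φ (act w x) = dens Φ x)
    {N : C(UnitAddTorus J, ℂ) → ℂ} {d : (J → ℤ) →₀ ℤ}
    (hN : ∀ f : C(UnitAddTorus J, ℂ), N f = ∫ x, f x * (trig d x * (dens Φ x : ℂ)) ∂(vol J))
    (hNw : ∀ w ∈ W, ∀ f : C(UnitAddTorus J, ℂ), N (f.comp ⟨act w, continuous_act w⟩) = N f) :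
    (∀ w ∈ W, ∀ x, trig d (act w x) = trig d x) ∧ ∀ w ∈ W, ∀ μ, d (w μ) = d μ := by
  have hd := continuous_dens Φ
  have ht := continuous_trig d
  have h1 : ∀ w ∈ W, ∀ x, trig d (act w x) = trig d x := by
    intro w hw x
    have hw' : w⁻¹ ∈ W := W.inv_mem hw
    have hww : ∀ x, act w⁻¹ (act w x) = x := fun x => by
      rw [act_mul, mul_inv_cancel, act_one]
    have hc1 := continuous_act (J := J) w
    have hc2 := continuous_act (J := J) w⁻¹
    set g : UnitAddTorus J → ℂ := fun x => trig d (act w x) - trig d x with hg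
    have hgc : Continuous g := by
      rw [hg]
      exact (ht.comp hc1).sub ht
    have h2 : ∀ f : C(UnitAddTorus J, ℂ), ∫ x, f x * (g x * (dens Φ x : ℂ)) ∂(vol J) = 0 := by
      intro f
      have h3 := hNw w⁻¹ hw' f
      rw [hN, hN] at h3
      have h4 : ∫ x, (f.comp ⟨act w⁻¹, continuous_act w⁻¹⟩) x * (trig d x * (dens Φ x : ℂ)) ∂(vol J) =
          ∫ x, f x * (trig d (act w x) * (dens Φ x : ℂ)) ∂(vol J) := by
        rw [← int_act w (F := fun x => (f.comp ⟨act w⁻¹, continuous_act w⁻¹⟩) x *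
          (trig d x * (dens Φ x : ℂ))) (by fun_prop)]
        refine integral_congr_ae (Eventually.of_forall fun x => ?_)
        simp only [ContinuousMap.comp_apply, ContinuousMap.coe_mk]
        rw [hww, hinv w hw]
      rw [h4] at h3
      have h5 : ∫ x, f x * (g x * (dens Φ x : ℂ)) ∂(vol J) =
          ∫ x, f x * (trig d (act w x) * (dens Φ x : ℂ)) ∂(vol J) -
            ∫ x, f x * (trig d x * (dens Φ x : ℂ)) ∂(vol J) := by
        have i1 : Continuous fun x => trig d (act w x) := ht.comp hc1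
        rw [← integral_sub (integrable_cont _ (by fun_prop)) (integrable_cont _ (by fun_prop))]
        refine integral_congr_ae (Eventually.of_forall fun x => ?_)
        simp only [hg]
        ring
      rw [h5, h3, sub_self]
    have h6 := h2 ⟨fun x => conj (g x), by fun_prop⟩
    have h7 : ∫ x, ‖g x‖ ^ 2 * dens Φ x ∂(vol J) = 0 := by
      have h8 : ((∫ x, ‖g x‖ ^ 2 * dens Φ x ∂(vol J) : ℝ) : ℂ) = 0 := by
        rw [← integral_complex_ofReal, ← h6]
        refine integral_congr_ae (Eventually.of_forall fun x => ?_)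
        simp only [ContinuousMap.coe_mk]
        rw [← mul_assoc, ← Complex.normSq_eq_conj_mul_self, Complex.normSq_eq_norm_sq]
        push_cast
        rfl
      exact_mod_cast h8
    have h9 := zero_of_dens h0 hgc h7 x
    exact sub_eq_zero.1 h9
  refine ⟨h1, fun w hw μ => ?_⟩
  have h2 := int_trig d (-μ)
  have h3 := int_trig d (-(w μ))
  rw [neg_neg] at h2 h3
  have h4 : ∫ x, mFourier (-(w μ)) x * trig d x ∂(vol J) =
      ∫ x, mFourier (-μ) x * trig d x ∂(vol J) := by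
    rw [← int_act w (F := fun x => mFourier (-μ) x * trig d x) (by fun_prop)]
    refine integral_congr_ae (Eventually.of_forall fun x => ?_)
    simp only
    rw [mF_act, h1 w hw, map_neg]
  rw [h2, h3] at h4
  exact_mod_cast h4

end

section
variable {K : Type} [Field K] [NumberField K]

/-- the mean value of a bounded real function is real -/
theorem cE_real {ε : ℝ} (hε : Good K ε) (t : HeightOneSpectrum (𝓞 K) → ℝ) {C : ℝ}
    (hC : ∀ v, ‖(t v : ℂ)‖ ≤ C) :
    (((cE (fun v => (t v : ℂ)) ε).re : ℝ) : ℂ) = cE (fun v => (t v : ℂ)) ε := by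
  refine Complex.ext (by rw [Complex.ofReal_re]) ?_
  rw [Complex.ofReal_im, cE_im hε hC, Pool.Agent.Y139.ID.avg_eq]
  simp

theorem cE_nonneg {ε : ℝ} (hε : Good K ε) (t : HeightOneSpectrum (𝓞 K) → ℝ)
    (h0 : ∀ v, 0 ≤ t v) {C : ℝ} (hC : ∀ v, ‖(t v : ℂ)‖ ≤ C) :
    0 ≤ (cE (fun v => (t v : ℂ)) ε).re := by
  rw [cE_re hε hC, Pool.Agent.Y139.ID.avg_eq]
  refine tsum_nonneg fun v => mul_nonneg (Pool.Agent.Y139.ID.wt_nonneg hε v) ?_
  rw [Complex.ofReal_re]
  exact h0 v

/-- the mean value along an ultrafilter of a bounded nonnegative function -/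
theorem mean_exists (U : Ultrafilter ℝ) (hU : (U : Filter ℝ) ≤ 𝓝[>] 0)
    (t : HeightOneSpectrum (𝓞 K) → ℝ) (h0 : ∀ v, 0 ≤ t v) {C : ℝ} (hC : ∀ v, t v ≤ C) :
    ∃ m : ℝ, 0 ≤ m ∧ Tendsto (cE fun v => ((t v : ℝ) : ℂ)) (U : Filter ℝ) (𝓝 (m : ℂ)) := by
  have hC' : ∀ v, ‖(t v : ℂ)‖ ≤ C := fun v => by
    rw [Complex.norm_real, Real.norm_eq_abs, abs_of_nonneg (h0 v)]
    exact hC v
  have hg : ∀ᶠ ε in (U : Filter ℝ), Good K ε := hU (good_ev (K := K))
  obtain ⟨z, hz⟩ := ulim U (a := cE fun v => ((t v : ℝ) : ℂ)) (R := C) (by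
    filter_upwards [hg] with ε hε
    exact norm_cE_le hε hC')
  have h1 : Tendsto (fun ε => (cE (fun v => ((t v : ℝ) : ℂ)) ε).re) (U : Filter ℝ) (𝓝 z.re) :=
    (Complex.continuous_re.tendsto _).comp hz
  have h2 : 0 ≤ z.re := by
    refine ge_of_tendsto h1 ?_
    filter_upwards [hg] with ε hε
    exact cE_nonneg hε t h0 hC'
  refine ⟨z.re, h2, ?_⟩
  have h3 := (Complex.continuous_ofReal.tendsto _).comp h1
  refine h3.congr' ?_
  filter_upwards [hg] with ε hε
  exact cE_real hε t hC'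

end

/-- job OG-COMP -/
theorem t (hfunw : StmFunW) (hfix : StmFix) : StmComp := by
  intro K _ _ r W Φ hWfin h0 hinv κ hκ θ a ha U hU hlaw h B hB hn
  classical
  let _ : Fintype W := Fintype.ofFinite W
  have hcard : (Nat.card W : ℂ) ≠ 0 := by
    have : Nat.card W ≠ 0 := Nat.card_pos.ne'
    exact_mod_cast this
  have hκR : (0 : ℝ) < κ := by exact_mod_cast hκ
  have hκC : (κ : ℂ) ≠ 0 := by exact_mod_cast hκ.ne'
  have hB' : ∀ v, ‖h v‖ ≤ |B| := fun v => (hB v).trans (le_abs_self B)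
  obtain ⟨m, hm0, hm⟩ := mean_exists U hU (fun v => a v * ‖h v‖ ^ 2)
    (fun v => mul_nonneg (ha v).1 (sq_nonneg _)) (C := |B| ^ 2) (fun v => by
      calc a v * ‖h v‖ ^ 2 ≤ 1 * |B| ^ 2 :=
            mul_le_mul (ha v).2 (pow_le_pow_left₀ (norm_nonneg _) (hB' v) 2) (sq_nonneg _)
              zero_le_one
        _ = |B| ^ 2 := one_mul _)
  obtain ⟨N, hN1, hN2, hN3⟩ := hfunw K r W Φ hinv κ hκ θ a ha U hU hlaw h |B| hB' m hm
  choose n hn' using hn
  have hLμ : ∀ μ, ((κ : ℂ) • N) (mFourier μ) = n μ := by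
    intro μ
    rw [LinearMap.smul_apply, smul_eq_mul]
    refine tendsto_nhds_unique ((hN1 (mFourier μ)).const_mul (κ : ℂ)) ((hn' μ).congr fun ε => ?_)
    rw [← cE_const_mul]
    congr 1
    funext v
    have h4 : sym W (mFourier μ) (θ v) = orb W μ (θ v) := (orb_eq' μ _).symm
    rw [h4]
    ring
  obtain ⟨d, hd⟩ := hfix (Fin r) Φ h0 (κ * m * Nat.card W) |B| (by positivity) (abs_nonneg B)
    ((κ : ℂ) • N) (fun f => by
      rw [LinearMap.smul_apply, smul_eq_mul, norm_mul, Complex.norm_natCast, mul_pow]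
      have h1 := mul_le_mul_of_nonneg_left (hN2 f) (sq_nonneg (κ : ℝ))
      refine h1.trans (le_of_eq ?_)
      field_simp) (fun ψ hψ hψ0 => by
      rw [LinearMap.smul_apply, smul_eq_mul, norm_mul, Complex.norm_natCast]
      have h1 := mul_le_mul_of_nonneg_left (hN3 ψ hψ hψ0) hκR.le
      refine h1.trans (le_of_eq ?_)
      field_simp) (fun μ => ⟨n μ, hLμ μ⟩)
  have hNw : ∀ w ∈ W, ∀ f : C(UnitAddTorus (Fin r), ℂ),
      ((κ : ℂ) • N) (f.comp ⟨act w, continuous_act w⟩) = ((κ : ℂ) • N) f := by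
    intro w hw f
    have h5 : N (f.comp ⟨act w, continuous_act w⟩) = N f := by
      refine tendsto_nhds_unique (hN1 _) ((hN1 f).congr fun ε => ?_)
      congr 1
      funext v
      rw [sym_comp f hw]
    rw [LinearMap.smul_apply, LinearMap.smul_apply, h5]
  obtain ⟨hTinv, hdinv⟩ := coef_inv' h0 hinv (N := ((κ : ℂ) • N)) hd hNw
  refine ⟨d, hTinv, hdinv, fun f hf hfW => ?_⟩
  have h1 := (hN1 ⟨f, hf⟩).const_mul ((Nat.card W : ℂ)⁻¹)
  have h2 : (Nat.card W : ℂ)⁻¹ * N ⟨f, hf⟩ = ((κ : ℂ) * (Nat.card W : ℂ))⁻¹ *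
      ∫ x, f x * (trig d x * (dens Φ x : ℂ)) ∂(vol (Fin r)) := by
    have h3 := hd ⟨f, hf⟩
    rw [LinearMap.smul_apply, smul_eq_mul] at h3
    simp only [ContinuousMap.coe_mk] at h3
    rw [← h3]
    field_simp
  rw [← h2]
  refine h1.congr fun ε => ?_
  rw [← cE_const_mul]
  congr 1
  funext v
  have h4 : sym W (⟨f, hf⟩ : C(UnitAddTorus (Fin r), ℂ)) (θ v) = (Nat.card W : ℂ) * f (θ v) :=
    sym_inv W hfW (θ v)
  rw [h4]
  field_simp

end Pool.Agent.Y876.OG
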